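import Mathlib

namespace Pool.Agent.Results.MP_54d771_al.Mixed

open Matrix Complex

def Tri {n : ℕ} (M : Matrix (Fin n) (Fin n) ℂ) : Prop :=
  ∀ i j : Fin n, (i.val + 1 < j.val ∨ j.val + 1 < i.val) → M i j = 0

def IrrTri {n : ℕ} (M : Matrix (Fin n) (Fin n) ℂ) : Prop :=
  Tri M ∧ ∀ i j : Fin n, (i.val + 1 = j.val ∨ j.val + 1 = i.val) → M i j ≠ 0

abbrev V := Fin 4 → ℂ

/-- the matrix of `A` in the basis `b` -/
noncomputable def mat (b : Module.Basis (Fin 4) ℂ V) (A : Module.End ℂ V) :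
    Matrix (Fin 4) (Fin 4) ℂ := LinearMap.toMatrix b b A

/-- in the basis `b`, `A` is diagonal and `A'` is irreducible tridiagonal with zero diagonal -/
def Half (A A' : Module.End ℂ V) (b : Module.Basis (Fin 4) ℂ V) (θ : Fin 4 → ℂ) : Prop :=
  mat b A = diagonal θ ∧ IrrTri (mat b A') ∧ ∀ i, mat b A' i i = 0

def Admissible (A A' : Module.End ℂ V) (c : Module.Basis (Fin 4) ℂ V) : Prop :=
  Tri (mat c A) ∧ Tri (mat c A') ∧ (∀ i, mat c A i i = 0) ∧ ∀ i, mat c A' i i = 0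

def Eigenbasis (M : Module.End ℂ V) (c : Module.Basis (Fin 4) ℂ V) : Prop :=
  ∀ i, ∃ μ : ℂ, M (c i) = μ • c i

lemma basis (P : Matrix (Fin 4) (Fin 4) ℂ) (h : P.det ≠ 0) :
    ∃ b : Module.Basis (Fin 4) ℂ V, ∀ X M : Matrix (Fin 4) (Fin 4) ℂ, X * P = P * M →
      mat b (Matrix.toLin' X) = M := by
  classical
  have hl : LinearIndependent ℂ P.col := Matrix.linearIndependent_cols_iff_isUnit.2
    ((Matrix.isUnit_iff_isUnit_det P).2 (isUnit_iff_ne_zero.2 h))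
  refine ⟨basisOfPiSpaceOfLinearIndependent hl, fun X M e => ?_⟩
  ext i j
  have : Matrix.toLin' X (basisOfPiSpaceOfLinearIndependent hl j) =
      ∑ k, M k j • basisOfPiSpaceOfLinearIndependent hl k := by
    rw [coe_basisOfPiSpaceOfLinearIndependent]
    ext r
    have := congrFun (congrFun e r) j
    simp only [Matrix.mul_apply] at this
    simpa [Matrix.mulVec, dotProduct, mul_comm] using this
  rw [mat, LinearMap.toMatrix_apply, this, Module.Basis.repr_sum_self]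

def X : Matrix (Fin 4) (Fin 4) ℂ := !![0, 12, 0, 0; 28, 0, 10, 0; 0, 10, 0, 7; 0, 0, 3, 0]
def Y : Matrix (Fin 4) (Fin 4) ℂ := !![0, 3, 0, 0; -7, 0, 10, 0; 0, -10, 0, 28; 0, 0, -12, 0]

lemma noeig (q : ℂ) (hq : q ≠ 0) : ¬ Eigenbasis
    (q • (toLin' X * toLin' Y) - q⁻¹ • (toLin' Y * toLin' X)) (Pi.basisFun ℂ (Fin 4)) := by
  intro h
  obtain ⟨a, ha⟩ := h 0
  obtain ⟨b, hb⟩ := h 2
  have h1 := congrFun ha 2
  have h2 := congrFun hb 0
  simp [X, Y, dotProduct, Fin.sum_univ_succ] at h1 h2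
  field_simp at h1 h2
  have : (1 : ℂ) = 0 := by linear_combination (12 / 3150) * h1 + (7 / 3150) * h2
  exact one_ne_zero this

theorem result : ∃ (A A' : Module.End ℂ V) (b b' c : Module.Basis (Fin 4) ℂ V) (θ θ' : Fin 4 → ℂ),
    Half A A' b θ ∧ Half A' A b' θ' ∧
    (θ 0 - θ 3) / (θ 1 - θ 2) = 2 ^ 2 + 2⁻¹ ^ 2 + 1 ∧
    (θ' 0 - θ' 3) / (θ' 1 - θ' 2) = 2 ^ 2 + 2⁻¹ ^ 2 + 1 ∧ Admissible A A' c ∧
    ∀ q : ℂ, q ≠ 0 → ¬ Eigenbasis (q • (A * A') - q⁻¹ • (A' * A)) c ∧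
      ¬ Eigenbasis (q⁻¹ • (A * A') - q • (A' * A)) c := by
  obtain ⟨b, hb⟩ := basis !![-8, 3, -3, 8; 14, -1, -1, 14; -7, -8, 8, 7; 1, 6, 6, 1] (by
    simp [Matrix.det_succ_row_zero, Fin.sum_univ_succ, Fin.succAbove]; norm_num)
  obtain ⟨b', hb'⟩ := basis !![-I, 6 * I, -6 * I, I; -7, 8, 8, -7; 14 * I, I, -I, -14 * I;
      8, 3, 3, 8] (by
    simp [Matrix.det_succ_row_zero, Fin.sum_univ_succ, Fin.succAbove, Complex.ext_iff]; norm_num)
  have e1 := hb X (diagonal ![-21, -4, 4, 21]) (by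
    ext i j; fin_cases i <;> fin_cases j <;>
      simp [X, Matrix.mul_apply, Fin.sum_univ_succ, diagonal] <;> norm_num)
  have e2 := hb Y !![0, -6, 0, 0; 14, 0, -17, 0; 0, 17, 0, -14; 0, 0, 6, 0] (by
    ext i j; fin_cases i <;> fin_cases j <;>
      simp [Y, Matrix.mul_apply, Fin.sum_univ_succ] <;> norm_num)
  have e3 := hb' Y (diagonal ![-21 * I, -4 * I, 4 * I, 21 * I]) (by
    ext i j; fin_cases i <;> fin_cases j <;>
      simp [Y, Matrix.mul_apply, Fin.sum_univ_succ, diagonal, Complex.ext_iff] <;> norm_num)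
  have e4 := hb' X !![0, -6 * I, 0, 0; 14 * I, 0, -17 * I, 0; 0, 17 * I, 0, -14 * I;
      0, 0, 6 * I, 0] (by
    ext i j; fin_cases i <;> fin_cases j <;>
      simp [X, Matrix.mul_apply, Fin.sum_univ_succ, Complex.ext_iff] <;> norm_num)
  have e5 : ∀ M, mat (Pi.basisFun ℂ _) (toLin' M) = M := fun M => by
    rw [mat, LinearMap.toMatrix_eq_toMatrix', LinearMap.toMatrix'_toLin']
  refine ⟨toLin' X, toLin' Y, b, b', Pi.basisFun ℂ _, _, _, ⟨e1, ?_, ?_⟩, ⟨e3, ?_, ?_⟩, ?_, ?_,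
    ⟨?_, ?_, ?_, ?_⟩,
    fun q hq => ⟨noeig q hq, by simpa only [inv_inv] using noeig q⁻¹ (inv_ne_zero hq)⟩⟩
  · rw [e2]; constructor <;> intro i j <;> fin_cases i <;> fin_cases j <;> simp
  · rw [e2]; intro i; fin_cases i <;> simp
  · rw [e4]; constructor <;> intro i j <;> fin_cases i <;> fin_cases j <;> simp
  · rw [e4]; intro i; fin_cases i <;> simp
  · simp; norm_num
  · simp; field_simp; norm_num
  · rw [e5]; intro i j; fin_cases i <;> fin_cases j <;> simp [X]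
  · rw [e5]; intro i j; fin_cases i <;> fin_cases j <;> simp [Y]
  · rw [e5]; intro i; fin_cases i <;> simp [X]
  · rw [e5]; intro i; fin_cases i <;> simp [Y]

end Pool.Agent.Results.MP_54d771_al.Mixed
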